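import Pool.Agent.H18.XX.TA
import Pool.Agent.H15.XH.RGW

/-!
# RBF: a game whose leaves are formulas does not see a block, relative to an event
-/

set_option autoImplicit false

namespace Pool.Agent.H15.XX

open Finset Pool.Agent.H6.NB Pool.Agent.H70.EH Pool.Agent.H78.XQ Pool.Agent.H66.IQ
open Pool.Agent.H18.XX
open Pool.Agent.H66.XP (Bc)

theorem rbf_cc {V : Type} (t : Tr V) : t.cc ≤ t.dp := by
  induction t with
  | lf a => exact le_rfl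
  | av l r hl hr =>
    show max l.cc r.cc ≤ max l.dp r.dp + 1
    omega
  | ch l r hl hr =>
    show max l.cc r.cc + 1 ≤ max l.dp r.dp + 1
    omega

/-- RBF -/
theorem pf_RBF (hEVS : T_EVS) (hTPR : Pool.Agent.H66.AV.T_TPR)
    (hCLB : T_CLB) (hBLR : T_BLR) (hONR : T_ONR) (hRGW : Pool.Agent.H18.XX.T_RGW) (hNUR : T_NUR) :
    T_RBF := by
  intro r l q R n hS b B F hB1 hB2 hF1 hF2
  obtain ⟨n1, n2, n3, n4, n5⟩ := hNUR r l q R n hS _ _ _ _ _ rfl rfl rfl rfl rfl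
  have hr : 20 ≤ r := hS.r_ge
  have hl : 0 < l := by
    have h3 : 0 < 16 * r ^ 3 := by positivity
    exact lt_of_lt_of_le h3 hS.l_ge
  have hq : 10 ≤ q := by
    rw [hS.q_eq]
    omega
  have hR : 0 < R := by
    rw [hS.R_eq]
    positivity
  have hδ : (0 : ℝ) < R / 2 ^ l := by
    have : (0 : ℝ) < R := by exact_mod_cast hR
    positivity
  have hw1 : 1 ≤ 4 ^ r ^ 2 := Nat.one_le_pow _ _ (by norm_num)
  have hbd : 1 ≤ bd r := Nat.one_le_two_pow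
  have hS2 : 2 ≤ 2 ^ bd r := by
    calc 2 = 2 ^ 1 := rfl
      _ ≤ 2 ^ bd r := Nat.pow_le_pow_right (by norm_num) hbd
  have hMON : ∀ (V : Type) (d d' : ℕ) (f : (V → Bool) → Bool), d ≤ d' →
      Cl V (2 ^ bd r) d f → Cl V (2 ^ bd r) d' f := fun V => (hCLB V (2 ^ bd r) hS2).2.1
  have hbi : ∀ c : Bool, 0 ≤ bi c ∧ bi c ≤ 1 := fun c => Pool.Agent.H15.XH.bi01 c
  have h01 : ∀ c, 0 ≤ F c ∧ F c ≤ 1 := by
    rintro ⟨P, h⟩
    obtain ⟨t, -, -, ht⟩ := hF2 P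
    rw [ht h]
    obtain ⟨h3, h4, h5, -⟩ := hEVS _ 1 t h one_pos
    exact ⟨h3.trans h4, h5⟩
  have hc : (Fintype.card (Fin n → Bool) : ℝ) = 2 ^ n := by
    rw [Fintype.card_fun, Fintype.card_bool, Fintype.card_fin]
    push_cast
    rfl
  -- one copy
  have one : ∀ (t : Tr (VV q)) (A : (VV q → Bool) → Bool), t.dp ≤ bd r →
      t.Cb (2 ^ bd r) (r + 2) → Cl (VV q) (2 ^ bd r) (r + 2) A →
      |∑ p, mv true q p * (t.ev p * bi (A p)) - ∑ p, mv false q p * (t.ev p * bi (A p))| ≤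
        (128 * ((4 ^ r ^ 2 : ℕ) : ℝ)) ^ (2 * (r + 4)) *
          (4003 * (bd r : ℝ) ^ 2 * (bd r + 1) * ((4 ^ r ^ 2 : ℕ) : ℝ) ^ 2 / 2 ^ (q / 4)) *
          ∑ p, mv false q p * bi (A p) +
        4 * ((128 * ((4 ^ r ^ 2 : ℕ) : ℝ)) ^ (2 * (r + 4)) *
          ((2 * 2 ^ q) ^ 2 * 2 ^ bd r * (((2 ^ bd r : ℕ) : ℝ) + 1) ^ (r + 4) /
            2 ^ (4 ^ r ^ 2 : ℕ)) + 1 / 2 ^ 2 ^ (q - 2)) := by
    intro t A h1 h2 h3
    obtain ⟨t', h4, h5, h6⟩ := hTPR (VV q) t (Tr.lf (Pool.Agent.H15.XH.lfA A))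
    have hd : t'.dp ≤ bd r := by
      have : (Tr.lf (Pool.Agent.H15.XH.lfA A)).dp = 0 := rfl
      omega
    have e : ∀ p, t'.ev p = t.ev p * bi (A p) := fun p => h6 p
    have h7 := hONR q (bd r) (bd r) (2 ^ bd r) (r + 3) (4 ^ r ^ 2) t' A hq hbd hw1
      ((rbf_cc t').trans hd) hd (h5 (2 ^ bd r) (r + 2) hS2 h2 h3)
      (hMON _ _ _ _ (by omega) h3)
      (fun p hp => by rw [e, hp]; simp [bi]) n1
    simp only [e] at h7
    exact h7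
  -- the correction string
  have two : ∀ (t : Tr (Fin n → Bool)) (A : ((Fin n → Bool) → Bool) → Bool) (W : ℕ),
      t.dp ≤ bd r → t.Cb (2 ^ bd r) (r + 2) → Cl (Fin n → Bool) (2 ^ bd r) (r + 2) A →
      |(W : ℝ) - 2 ^ n / 2| ≤ R / 2 ^ l * 2 ^ n →
      |wm (fun _ => none) W (fun h => t.ev h * bi (A h)) - mn fun h => t.ev h * bi (A h)| ≤
        1000 * ((4 ^ r ^ 2 : ℕ) : ℝ) ^ 2 * (R / 2 ^ l * (128 * ((4 ^ r ^ 2 : ℕ) : ℝ)) ^ (r + 4) +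
          √(2 * (128 * ((4 ^ r ^ 2 : ℕ) : ℝ)) ^ (r + 4) / 2 ^ n) +
          (128 * ((4 ^ r ^ 2 : ℕ) : ℝ)) ^ (r + 4) / 2 ^ n) * (mn fun h => bi (A h)) +
        (2 * 2 ^ bd r * (((2 ^ bd r : ℕ) : ℝ) + 1) ^ (r + 4) / 2 ^ (4 ^ r ^ 2 : ℕ) +
          4 * Real.exp (-(2 ^ n * (R / 2 ^ l) ^ 2 / 4))) := by
    intro t A W h1 h2 h3 hW
    obtain ⟨t', h4, h5, h6⟩ := hTPR (Fin n → Bool) t (Tr.lf (Pool.Agent.H15.XH.lfA A))
    have hd : t'.dp ≤ bd r := by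
      have : (Tr.lf (Pool.Agent.H15.XH.lfA A)).dp = 0 := rfl
      omega
    have e : ∀ p, t'.ev p = t.ev p * bi (A p) := fun p => h6 p
    have e' : t'.ev = fun h => t.ev h * bi (A h) := funext e
    have h7 := hRGW (Fin n → Bool) (2 ^ bd r) (r + 3) (4 ^ r ^ 2) W (R / 2 ^ l) t' A hw1 hδ
      (by rw [hc]; exact n3) (h5 (2 ^ bd r) (r + 2) hS2 h2 h3)
      (hMON _ _ _ _ (by omega) h3)
      (fun p hp => by rw [e, hp]; simp [bi]) (by rw [hc]; exact hW)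
    rw [hc, e'] at h7
    refine h7.trans (add_le_add_right (add_le_add_left ?_ _) _)
    have h8 : (2 : ℝ) ^ t'.dp ≤ 2 ^ bd r := pow_le_pow_right₀ (by norm_num) hd
    gcongr
  have key := hBLR r l q R n hS b (fun c => F c * bi (B c)) (fun c => bi (B c))
    ((128 * ((4 ^ r ^ 2 : ℕ) : ℝ)) ^ (2 * (r + 4)) *
      (4003 * (bd r : ℝ) ^ 2 * (bd r + 1) * ((4 ^ r ^ 2 : ℕ) : ℝ) ^ 2 / 2 ^ (q / 4)))
    (4 * ((128 * ((4 ^ r ^ 2 : ℕ) : ℝ)) ^ (2 * (r + 4)) *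
      ((2 * 2 ^ q) ^ 2 * 2 ^ bd r * (((2 ^ bd r : ℕ) : ℝ) + 1) ^ (r + 4) /
        2 ^ (4 ^ r ^ 2 : ℕ)) + 1 / 2 ^ 2 ^ (q - 2)))
    (1000 * ((4 ^ r ^ 2 : ℕ) : ℝ) ^ 2 * (R / 2 ^ l * (128 * ((4 ^ r ^ 2 : ℕ) : ℝ)) ^ (r + 4) +
      √(2 * (128 * ((4 ^ r ^ 2 : ℕ) : ℝ)) ^ (r + 4) / 2 ^ n) +
      (128 * ((4 ^ r ^ 2 : ℕ) : ℝ)) ^ (r + 4) / 2 ^ n))
    (2 * 2 ^ bd r * (((2 ^ bd r : ℕ) : ℝ) + 1) ^ (r + 4) / 2 ^ (4 ^ r ^ 2 : ℕ) +
      4 * Real.exp (-(2 ^ n * (R / 2 ^ l) ^ 2 / 4)))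
    (fun c => by
      rw [abs_of_nonneg (mul_nonneg (h01 c).1 (hbi _).1)]
      exact mul_le_one₀ (h01 c).2 (hbi _).1 (hbi _).2)
    (fun c => hbi _) (by positivity) (by positivity) (by positivity) n3 (by positivity) n2
    (fun P u h => ?_) (fun P u h => ?_) (fun P W hW => ?_)
  · refine key.trans (add_le_add (mul_le_mul_of_nonneg_right n4 ?_) n5)
    refine sum_nonneg fun c _ => mul_nonneg ?_ (hbi _).1
    unfold m0
    refine div_nonneg (prod_nonneg fun u _ => ?_) (by positivity)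
    unfold mv
    rw [if_neg (by simp)]
    positivity
  · obtain ⟨t, ht1, ht2, ht3⟩ := hF1 P u h
    have h4 := one t (fun c => B (Function.update P u c, h)) ht1 ht2 (hB1 P u h)
    simp only [ht3]
    exact h4
  · have h4 := one (Tr.lf (Pool.Agent.H15.XH.lfA fun _ => true))
      (fun c => B (Function.update P u c, h)) (Nat.zero_le _) ?_ (hB1 P u h)
    · have e : ∀ p, (Tr.lf (Pool.Agent.H15.XH.lfA (V := VV q) fun _ => true)).ev p = 1 :=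
        fun p => by simp [Tr.ev, Pool.Agent.H15.XH.lfA, bi]
      simp only [e, one_mul] at h4
      exact h4
    · exact (hCLB (VV q) (2 ^ bd r) hS2).1 (r + 2) true
  · obtain ⟨t, ht1, ht2, ht3⟩ := hF2 P
    have h4 := two t (fun h => B (P, h)) W ht1 ht2 (hB2 P) hW
    have h5 : (fun h : (Fin n → Bool) → Bool => F (P, h) * bi (B (P, h))) =
        fun h => t.ev h * bi (B (P, h)) := funext fun h => by rw [ht3 h]
    rw [h5]
    exact h4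

end Pool.Agent.H15.XX
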