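import Pool.Agent.H15.XH.RGW
import Pool.Agent.H18.XX.TA

/-!
# RGW: a game on strings of given weight, relative to an event
-/

set_option autoImplicit false

namespace Pool.Agent.H15.XX

open Finset Pool.Agent.H6.NB Pool.Agent.H70.EH Pool.Agent.H78.XQ
open Pool.Agent.H66.IQ Pool.Agent.H18.XX

/-- RGW -/
theorem pf_RGW (hSWD : T_SWD) (hGWT : T_GWT) (hKST : T_KST) (hSBT : T_SBT) (hEVS : T_EVS)
    (hHOE : Pool.Agent.H78.XQ.T_HOE) (hEXC : Pool.Agent.H78.XQ.T_EXC) :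
    Pool.Agent.H18.XX.T_RGW := by
  intro V _ _ _ S d w W δ t A hw hδ hsm hCb hA hsup hW
  have hwr : (1 : ℝ) ≤ w := by exact_mod_cast hw
  have hN : (0 : ℝ) < Fintype.card V := by exact_mod_cast Fintype.card_pos
  obtain ⟨N, hNe⟩ : ∃ N : ℝ, N = Fintype.card V := ⟨_, rfl⟩
  obtain ⟨L, hL⟩ : ∃ L : ℝ, L = (128 * (w : ℝ)) ^ (d + 1) := ⟨_, rfl⟩
  have hL0 : 0 < L := by
    rw [hL]
    positivity
  have hfun : (fun y => t.ev y * bi (A y)) = t.ev := by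
    funext y
    cases h : A y with
    | false =>
      rw [hsup y h]
      simp
    | true => simp [bi]
  have key := Pool.Agent.H15.XH.pf_RGW hSWD hGWT hKST hSBT hEVS hHOE hEXC V S d w W δ t A hw hδ
  rw [← hL, ← hNe] at key hsm
  rw [← hNe] at hN hW
  rw [← hL, ← hNe]
  rw [hfun] at key
  have hw2 : (1 : ℝ) ≤ (w : ℝ) ^ 2 := one_le_pow₀ hwr
  have hww : (w : ℝ) ≤ (w : ℝ) ^ 2 := by
    rw [sq]
    exact le_mul_of_one_le_left (by linarith) hwr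
  have hs0 : 0 ≤ √(2 * L / N) := Real.sqrt_nonneg _
  have hLN : 0 ≤ L / N := by positivity
  have hδL : 0 ≤ δ * L := by positivity
  have hw0 : (0 : ℝ) ≤ (w : ℝ) ^ 2 := by positivity
  have a1 : 0 ≤ (w : ℝ) ^ 2 * (δ * L) := mul_nonneg hw0 hδL
  have a2 : 0 ≤ (w : ℝ) ^ 2 * √(2 * L / N) := mul_nonneg hw0 hs0
  have a3 : 0 ≤ (w : ℝ) ^ 2 * (L / N) := mul_nonneg hw0 hLN
  have b1 : (w : ℝ) * (δ * L) ≤ (w : ℝ) ^ 2 * (δ * L) := mul_le_mul_of_nonneg_right hww hδL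
  have b2 : (w : ℝ) * √(2 * L / N) ≤ (w : ℝ) ^ 2 * √(2 * L / N) :=
    mul_le_mul_of_nonneg_right hww hs0
  have b3 : L / N ≤ (w : ℝ) ^ 2 * (L / N) := le_mul_of_one_le_left hLN hw2
  have c1 : 160 * w * δ * L ≤ 1 := by linarith
  have c2 : 32 * (w : ℝ) ^ 2 * L ≤ N := by
    have h1 : 1000 * ((w : ℝ) ^ 2 * (L / N)) ≤ 1 := by linarith
    have e : 1000 * ((w : ℝ) ^ 2 * (L / N)) = 1000 * ((w : ℝ) ^ 2 * L) / N := by ring
    rw [e, div_le_one hN] at h1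
    have h2 : 0 ≤ (w : ℝ) ^ 2 * L := by positivity
    linarith
  refine (key c1 c2 hCb hA hW).trans ?_
  have hsq : √(4 * L / N) ≤ 2 * √(2 * L / N) := by
    have e : 2 * √(2 * L / N) = √(8 * L / N) := by
      have : (8 : ℝ) * L / N = 2 ^ 2 * (2 * L / N) := by ring
      rw [this, Real.sqrt_mul (by norm_num), Real.sqrt_sq (by norm_num)]
    rw [e]
    refine Real.sqrt_le_sqrt ?_
    exact div_le_div_of_nonneg_right (by linarith) hN.le
  have hsq2 : 4 * (w : ℝ) * √(4 * L / N) ≤ 8 * ((w : ℝ) * √(2 * L / N)) := by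
    have := mul_le_mul_of_nonneg_left hsq (show (0 : ℝ) ≤ 4 * w by positivity)
    linarith
  have hmn : 0 ≤ mn fun y => bi (A y) :=
    Pool.Agent.H70.EH.RL2.mn_nonneg _ fun y => (Pool.Agent.H15.XH.bi01 _).1
  have e1 : 16 * (w : ℝ) ^ 2 * L / N = 16 * ((w : ℝ) ^ 2 * (L / N)) := by ring
  have e2 : 64 * L / N = 64 * (L / N) := by ring
  have e3 : 1000 * (w : ℝ) ^ 2 * (δ * L + √(2 * L / N) + L / N) =
      1000 * ((w : ℝ) ^ 2 * (δ * L)) + 1000 * ((w : ℝ) ^ 2 * √(2 * L / N)) +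
        1000 * ((w : ℝ) ^ 2 * (L / N)) := by ring
  have hE : 60 * w * δ * L + 16 * (w : ℝ) ^ 2 * L / N + 4 * w * √(4 * L / N) + 64 * L / N ≤
      1000 * (w : ℝ) ^ 2 * (δ * L + √(2 * L / N) + L / N) := by
    rw [e1, e2, e3]
    linarith
  refine add_le_add (mul_le_mul_of_nonneg_right hE hmn) (add_le_add_left ?_ _)
  refine div_le_div_of_nonneg_right ?_ (by positivity)
  refine mul_le_mul_of_nonneg_right ?_ (by positivity)
  have : (1 : ℝ) ≤ 2 ^ t.dp := one_le_pow₀ (by norm_num)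
  linarith

end Pool.Agent.H15.XX
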